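import Pool.Agent.H32.TG.Com

/-!
# Row DVE of the board tga_modules: derivatives exist
-/

set_option autoImplicit false

namespace Pool.Agent.H32.TG

open MvPolynomial Pool.Agent.H2.ST Pool.Agent.H15.TG

theorem dvd_of_primes {R : Type} [CommRing R] [IsDomain R] [UniqueFactorizationMonoid R] (a : R) :
    a ≠ 0 → ∀ b : R, (∀ (π : R) (e : ℕ), Prime π → π ^ e ∣ a → π ^ e ∣ b) → a ∣ b := by
  induction a using UniqueFactorizationMonoid.induction_on_prime with
  | h₁ => exact fun h => absurd rfl h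
  | h₂ u hu => exact fun _ b _ => hu.dvd
  | h₃ a π ha hπ ih =>
    intro _ b hb
    obtain ⟨b', rfl⟩ : π ∣ b := by
      have := hb π 1 hπ (by rw [pow_one]; exact dvd_mul_right _ _)
      rwa [pow_one] at this
    refine mul_dvd_mul_left π (ih ha b' fun σ e hσ hse => ?_)
    by_cases hsp : σ ∣ π
    · have hass : Associated σ π := hσ.associated_of_dvd hπ hsp
      obtain ⟨v, hv⟩ := hass
      have h1 : σ ^ (e + 1) ∣ π * a := by
        rw [pow_succ', ← hv, mul_assoc]
        exact mul_dvd_mul_left σ (hse.mul_left _)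
      have h2 := hb σ (e + 1) hσ h1
      rw [pow_succ', ← hv, mul_assoc] at h2
      have h3 := (mul_dvd_mul_iff_left hσ.ne_zero).mp h2
      exact (Units.isUnit v).dvd_mul_left.mp h3
    · exact hσ.pow_dvd_of_dvd_mul_left e hsp (hb σ e hσ (hse.mul_left _))

theorem pf_DVE (hDV0 : T_DV0) (hCFC : T_CFC) (hCOC : T_COC) (hFAC : T_FAC) : T_DVE := by
  classical
  intro k _ _ _ m d W K H f h x hx hx0
  obtain ⟨p0, p, hp0, hp0C, hp0W, hp, hrel⟩ := hDV0 k m d W K H f h x hx hx0
  set L : (Fin d → ℤ) → Pol k m := fun χ => ∑ j, ((χ j : ℤ) : k) • p j with hL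
  have hLadd : ∀ χ χ', L (χ + χ') = L χ + L χ' := by
    intro χ χ'
    simp only [hL, Pi.add_apply]
    rw [← Finset.sum_add_distrib]
    exact Finset.sum_congr rfl fun j _ => by push_cast; rw [add_smul]
  have hLneg : ∀ χ, L (-χ) = -L χ := by
    intro χ
    simp only [hL, Pi.neg_apply]
    rw [← Finset.sum_neg_distrib]
    exact Finset.sum_congr rfl fun j _ => by push_cast; rw [neg_smul]
  have hLn : ∀ (n : ℕ) χ, L (n • χ) = (n : Pol k m) * L χ := by
    intro n χ
    induction n with
    | zero =>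
      rw [zero_smul, Nat.cast_zero, zero_mul]
      have := hLadd 0 0
      rw [add_zero] at this
      exact (left_eq_add.mp this)
    | succ n ih =>
      rw [succ_nsmul, hLadd, ih]
      push_cast
      ring
  have claim : ∀ (π : Pol k m) (e : ℕ), Prime π → π ^ e ∣ p0 → ∀ χ, Oc W K χ → π ^ e ∣ L χ := by
    intro π e hπ he χ hχ
    rcases Nat.eq_zero_or_pos e with rfl | hepos
    · rw [pow_zero]
      exact one_dvd _
    have hπ0 : π ∣ p0 := (dvd_pow_self π hepos.ne').trans he
    obtain ⟨q, hq⟩ := hπ0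
    have hπC : π ∈ Cf K f := (hCFC k m d W K H f h π q (by rw [← hq]; exact hp0)
      (by rw [← hq]; exact hp0C)).1
    obtain ⟨ψ, c, hπW, -, -⟩ := hFAC k (Pol k m) (Fin d → ℤ) W h.toGr 0 π q
      (by rw [← hq]; exact hp0W) (by rw [← hq]; exact hp0)
    have sub : ∀ χ, Oc W K χ → ∃ n : ℕ, π ^ e ∣ L χ - (n : Pol k m) * L ψ := by
      intro χ hχ
      obtain ⟨g, hgC, hgW, hg0⟩ := hCOC k m d W K H f h χ hχ
      obtain ⟨g', hg', hnd⟩ := (FiniteMultiplicity.of_not_isUnit hπ.not_isUnit
        hg0).exists_eq_pow_mul_and_not_dvd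
      set n := multiplicity π g with hn
      have hne : π ^ n * g' ≠ 0 := by rw [← hg']; exact hg0
      have hg'C : g' ∈ Cf K f := (hCFC k m d W K H f h (π ^ n) g' hne (by rw [← hg']; exact hgC)).2
      obtain ⟨b, c, hb, hc, hbc⟩ := hFAC k (Pol k m) (Fin d → ℤ) W h.toGr χ (π ^ n) g'
        (by rw [← hg']; exact hgW) hne
      have hbn : b = n • ψ := wt_uniq h.toGr hb (pow_mem_gr h.toGr hπW n)
        (pow_ne_zero n hπ.ne_zero)
      have hr := hrel c g' hg'C hc
      refine ⟨n, ?_⟩
      have h1 : L χ - (n : Pol k m) * L ψ = L c := by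
        rw [← hLn, sub_eq_iff_eq_add, ← hLadd, ← hbc, hbn, add_comm]
      rw [h1]
      have h2 : π ^ e ∣ g' * L c := by
        rw [← dvd_neg]
        change _ ∣ -(g' * ∑ j, ((c j : ℤ) : k) • p j)
        rw [← hr]
        exact he.mul_right _
      exact hπ.pow_dvd_of_dvd_mul_left e hnd h2
    obtain ⟨n, hn⟩ := sub χ hχ
    obtain ⟨n', hn'⟩ := sub (-χ) (h.ng χ hχ)
    rw [hLneg] at hn'
    by_cases h0 : n + n' = 0
    · have hn0 : n = 0 := by omega
      rw [hn0, Nat.cast_zero, zero_mul, sub_zero] at hn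
      exact hn
    · have h1 := dvd_add hn hn'
      have h2 : L χ - (n : Pol k m) * L ψ + (-L χ - (n' : Pol k m) * L ψ) =
          -(((n + n' : ℕ) : Pol k m) * L ψ) := by
        push_cast
        ring
      rw [h2, dvd_neg] at h1
      have hu : IsUnit (((n + n' : ℕ) : Pol k m)) := by
        have h3 : IsUnit (((n + n' : ℕ) : k)) := by
          rw [isUnit_iff_ne_zero]
          exact_mod_cast h0
        have h4 := h3.map (C : k →+* Pol k m)
        rwa [map_natCast] at h4
      have h3 : π ^ e ∣ L ψ := hu.dvd_mul_left.mp h1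
      have h4 := dvd_add hn (h3.mul_left (n : Pol k m))
      rwa [sub_add_cancel] at h4
  have hdvL : ∀ χ, Oc W K χ → p0 ∣ L χ := fun χ hχ =>
    dvd_of_primes p0 hp0 (L χ) fun π e hπ he => claim π e hπ he χ hχ
  have hsp : Submodule.span k (ct k '' {χ | Oc W K χ}) = ⊤ :=
    span_top _ fun l hl => h.sp l hl
  let M : Submodule k (Fin d → k) :=
    { carrier := {l | p0 ∣ ∑ j, l j • p j}
      add_mem' := by
        intro a b ha hb
        have h1 := dvd_add ha hb
        rw [← Finset.sum_add_distrib] at h1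
        change p0 ∣ ∑ j, (a + b) j • p j
        rw [Finset.sum_congr rfl fun j _ => by rw [Pi.add_apply, add_smul]]
        exact h1
      zero_mem' := by
        change p0 ∣ ∑ j, (0 : Fin d → k) j • p j
        rw [Finset.sum_eq_zero fun j _ => by rw [Pi.zero_apply, zero_smul]]
        exact dvd_zero _
      smul_mem' := by
        intro c l hl
        change p0 ∣ ∑ j, (c • l) j • p j
        have h1 : ∑ j, (c • l) j • p j = C c * ∑ j, l j • p j := by
          rw [Finset.mul_sum]
          exact Finset.sum_congr rfl fun j _ => by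
            rw [Pi.smul_apply, smul_eq_mul, mul_smul, smul_eq_C_mul]
        rw [h1]
        exact hl.mul_left _ }
  have hM : M = ⊤ := by
    rw [eq_top_iff, ← hsp, Submodule.span_le]
    rintro _ ⟨χ, hχ, rfl⟩
    exact hdvL χ hχ
  have hdv : ∀ j, p0 ∣ p j := by
    intro j
    have h1 : (Pi.single j 1 : Fin d → k) ∈ M := by
      rw [hM]
      exact Submodule.mem_top
    have h2 : p0 ∣ ∑ i, (Pi.single j 1 : Fin d → k) i • p i := h1
    rw [Finset.sum_eq_single j] at h2
    · rwa [Pi.single_eq_same, one_smul] at h2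
    · intro i _ hi
      rw [Pi.single_eq_of_ne hi, zero_smul]
    · intro h3
      exact absurd (Finset.mem_univ j) h3
  choose y hy using hdv
  refine ⟨y, fun j => ?_, fun χ g hgC hgW => ?_⟩
  · by_cases hyj : y j = 0
    · rw [hyj]
      exact ⟨Subalgebra.zero_mem _, Submodule.zero_mem _⟩
    · have hne : p0 * y j ≠ 0 := mul_ne_zero hp0 hyj
      have hC : p0 * y j ∈ Cf K f := by rw [← hy]; exact (hp j).1
      have hW : p0 * y j ∈ W 0 := by rw [← hy]; exact (hp j).2
      refine ⟨(hCFC k m d W K H f h p0 (y j) hne hC).2, ?_⟩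
      obtain ⟨b, c, hb, hc, hbc⟩ := hFAC k (Pol k m) (Fin d → ℤ) W h.toGr 0 p0 (y j) hW hne
      have hb0 : b = 0 := wt_uniq h.toGr hb hp0W hp0
      rw [hb0, zero_add] at hbc
      rw [← hbc]
      exact hc
  · have h1 := hrel χ g hgC hgW
    apply mul_left_cancel₀ hp0
    rw [h1, mul_neg, mul_left_comm]
    refine congrArg (fun z => -(g * z)) ?_
    rw [Finset.mul_sum]
    refine Finset.sum_congr rfl fun j _ => ?_
    rw [hy j, mul_smul_comm]

end Pool.Agent.H32.TG
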