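import Pool.Agent.H32.TG.Com

/-!
# Row IND of the board tga_modules: f and H are algebraically independent
-/

set_option autoImplicit false

namespace Pool.Agent.H32.TG

open MvPolynomial Pool.Agent.H2.ST Pool.Agent.H15.TG

theorem pf_IND (hAI1 : T_AI1) (hCOC : T_COC) : T_IND := by
  classical
  intro k _ _ _ m d W K H f h
  obtain ⟨χ, g, hli, hg⟩ := exists_weights hCOC h
  obtain ⟨s, hs, hsf⟩ : ∃ s ∈ K, br s f ≠ 0 := by
    by_contra hcon
    push Not at hcon
    obtain ⟨c, hc⟩ := h.cn f h.fK (fun g hg => by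
      rw [br_anti, hcon g hg, neg_zero]
      exact dvd_zero _)
    apply h.fn
    have h1 := h.fc0
    rw [hc, constantCoeff_C] at h1
    rw [hc, h1, C_0]
  have hdet : (Matrix.of fun i j : Unit ⊕ Fin d =>
      (Sum.elim (fun _ : Unit => ad s) (fun i => ad (g i)) i :
        Derivation k (Pol k m) (Pol k m)) (Sum.elim (fun _ : Unit => f) H j)).det ≠ 0 := by
    have e1 : (Matrix.of fun i j : Unit ⊕ Fin d =>
        (Sum.elim (fun _ : Unit => ad s) (fun i => ad (g i)) i :
          Derivation k (Pol k m) (Pol k m)) (Sum.elim (fun _ : Unit => f) H j)) =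
        Matrix.fromBlocks (Matrix.of fun _ _ : Unit => br s f)
          (Matrix.of fun (_ : Unit) (j : Fin d) => br s (H j)) 0
          (Matrix.of fun i j : Fin d => (-g i) * (Matrix.of fun i j : Fin d =>
            (C (ct k (χ i) j) : Pol k m)) i j) := by
      ext1 i j
      rcases i with i | i <;> rcases j with j | j
      · simp only [Matrix.of_apply, Sum.elim_inl, Matrix.fromBlocks_apply₁₁, ad_apply]
      · simp only [Matrix.of_apply, Sum.elim_inl, Sum.elim_inr, Matrix.fromBlocks_apply₁₂, ad_apply]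
      · simp only [Matrix.of_apply, Sum.elim_inl, Sum.elim_inr, Matrix.fromBlocks_apply₂₁, ad_apply]
        rw [br_anti, (mem_Cf.mp (hg i).1).2, neg_zero]
        rfl
      · simp only [Matrix.of_apply, Sum.elim_inr, Matrix.fromBlocks_apply₂₂, ad_apply]
        rw [br_anti, h.eu j (χ i) (g i) (mem_Cf.mp (hg i).1).1 (hg i).2.1, ct, smul_eq_C_mul]
        ring
    rw [e1, Matrix.det_fromBlocks_zero₂₁, Matrix.det_mul_column]
    refine mul_ne_zero ?_ (mul_ne_zero ?_ ?_)
    · rw [Matrix.det_unique]
      exact hsf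
    · exact Finset.prod_ne_zero_iff.mpr fun i _ => neg_ne_zero.mpr (hg i).2.2
    · have e2 : (Matrix.of fun i j : Fin d => (C (ct k (χ i) j) : Pol k m)) =
          (C : k →+* Pol k m).mapMatrix (Matrix.of fun i j : Fin d => ct k (χ i) j) := by
        ext1 i j
        rfl
      rw [e2, ← RingHom.map_det]
      rw [map_ne_zero_iff _ (C_injective _ _)]
      have h3 : IsUnit (Matrix.of fun i j : Fin d => ct k (χ i) j) := by
        rw [← Matrix.linearIndependent_rows_iff_isUnit]
        exact hli
      exact ((Matrix.isUnit_iff_isUnit_det _).mp h3).ne_zero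
  have h1 : Imod k (⊥ : Ideal (Pol k m)) (Sum.elim (fun i : Empty => i.elim)
      (Sum.elim (fun _ : Unit => f) H)) := by
    refine hAI1 k (Pol k m) Empty (Unit ⊕ Fin d) ⊥ (fun i : Empty => i.elim)
      (Sum.elim (fun _ : Unit => f) H) (Sum.elim (fun _ : Unit => ad s) (fun i => ad (g i)))
      Ideal.isPrime_bot ?_ (fun i j => j.elim) ?_ ?_
    · intro i x hx
      rw [Ideal.mem_bot] at hx ⊢
      rw [hx, map_zero]
    · rw [Ideal.mem_bot]
      exact hdet
    · intro P hP
      rw [MvPolynomial.eq_C_of_isEmpty P, aeval_C] at hP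
      rw [Ideal.mem_bot] at hP
      have h4 : P.coeff 0 = 0 := by
        apply C_injective (Fin m ⊕ Fin m) k
        rw [C_0]
        exact hP
      rw [MvPolynomial.eq_C_of_isEmpty P, h4, C_0]
  have h2 := ((Imod_bot _).mp h1).comp Sum.inr Sum.inr_injective
  exact h2

end Pool.Agent.H32.TG
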