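import Pool.Agent.H32.TG.Com

/-!
# Row TR0 of the board tga_modules: transcendence degree of the invariants
-/

set_option autoImplicit false

namespace Pool.Agent.H32.TG

open MvPolynomial Pool.Agent.H2.ST Pool.Agent.H15.TG

theorem pf_TR0 (hAI3 : T_AI3) (hTR1 : T_TR1) (hCOC : T_COC) : T_TR0 := by
  intro k _ _ _ m d W K H f h ι _ F hF hind
  obtain ⟨χ, g, hli, hg⟩ := exists_weights hCOC h
  have h1 : Imod k (⊥ : Ideal (Pol k m)) (Sum.elim F g) := by
    refine hAI3 k (Pol k m) (Fin d → ℤ) ι (Fin d) W h.toGr ⊥ F g χ Ideal.isPrime_bot ?_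
      (fun i => (hF i).2) (fun j => (hg j).2.1) (fun j hj => (hg j).2.2 hj) (li_int χ hli)
      ((Imod_bot F).mpr hind)
    intro x hx a
    rw [Ideal.mem_bot] at hx ⊢
    rw [hx, map_zero]
    rfl
  have h2 := hTR1 k m d W K H f h (ι ⊕ Fin d) (Sum.elim F g) (by
    rintro (i | j)
    · exact (hF i).1
    · exact (hg j).1) ((Imod_bot _).mp h1)
  rw [Fintype.card_sum, Fintype.card_fin] at h2
  omega

end Pool.Agent.H32.TG
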