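import Pool.Agent.H15.TG.Targets

/-!
# Rows TR0, IND, DVE of the board tga_modules: common lemmas
-/

set_option autoImplicit false

namespace Pool.Agent.H32.TG

open MvPolynomial Pool.Agent.H2.ST Pool.Agent.H15.TG

/-- a vector of integers in `k` -/
def ct (k : Type) [Field k] {d : ℕ} (χ : Fin d → ℤ) : Fin d → k := fun j => ((χ j : ℤ) : k)

theorem span_top {k : Type} [Field k] {d : ℕ} (S : Set (Fin d → ℤ))
    (hS : ∀ l : Fin d → k, (∀ χ ∈ S, ∑ j, l j * ((χ j : ℤ) : k) = 0) → l = 0) :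
    Submodule.span k (ct k '' S) = ⊤ := by
  classical
  by_contra hne
  obtain ⟨φ, hφ, hle⟩ := Submodule.exists_le_ker_of_lt_top _ (lt_top_iff_ne_top.mpr hne)
  apply hφ
  have hv : ∀ v : Fin d → k, φ v = ∑ j, φ (Pi.single j 1) * v j := by
    intro v
    conv_lhs => rw [pi_eq_sum_univ' v]
    rw [map_sum]
    refine Finset.sum_congr rfl fun j _ => ?_
    rw [map_smul, smul_eq_mul, mul_comm]
  have h0 : (fun j => φ (Pi.single j 1)) = 0 := by
    apply hS
    intro χ hχ
    have h1 : ct k χ ∈ LinearMap.ker φ := hle (Submodule.subset_span ⟨χ, hχ, rfl⟩)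
    rw [LinearMap.mem_ker, hv] at h1
    exact h1
  ext v
  rw [LinearMap.zero_comp, LinearMap.zero_apply, LinearMap.comp_apply]
  exact congrFun h0 _

theorem exists_basis {k : Type} [Field k] {d : ℕ} (S : Set (Fin d → ℤ))
    (hS : ∀ l : Fin d → k, (∀ χ ∈ S, ∑ j, l j * ((χ j : ℤ) : k) = 0) → l = 0) :
    ∃ χ : Fin d → Fin d → ℤ, (∀ i, χ i ∈ S) ∧ LinearIndependent k fun i => ct k (χ i) := by
  obtain ⟨b, hbT, hspan, hli⟩ := exists_linearIndependent k (ct k '' S)
  rw [span_top S hS] at hspan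
  set B := Module.Basis.mk hli (by rw [Subtype.range_coe, hspan]) with hB
  set e : b ≃ Fin d := B.indexEquiv (Pi.basisFun k (Fin d)) with he
  have h1 : ∀ i : Fin d, ∃ χ ∈ S, ct k χ = (e.symm i).1 := fun i => hbT (e.symm i).2
  choose χ hχ hχe using h1
  refine ⟨χ, hχ, ?_⟩
  have h2 := hli.comp e.symm e.symm.injective
  have h3 : (fun i => ct k (χ i)) = Subtype.val ∘ e.symm := by
    funext i
    exact hχe i
  rw [h3]
  exact h2

theorem li_int {k : Type} [Field k] [CharZero k] {d : ℕ} (χ : Fin d → Fin d → ℤ)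
    (h : LinearIndependent k fun i => ct k (χ i)) : LinearIndependent ℤ χ := by
  rw [Fintype.linearIndependent_iff] at h ⊢
  intro g hg i
  have h1 := h (fun i => ((g i : ℤ) : k)) (by
    funext j
    have h2 := congrFun hg j
    rw [Finset.sum_apply] at h2 ⊢
    simp only [Pi.smul_apply, smul_eq_mul, ct, Pi.zero_apply] at h2 ⊢
    have h3 := congrArg (fun z : ℤ => (z : k)) h2
    push_cast at h3
    exact h3) i
  exact_mod_cast h1

theorem Imod_bot {k : Type} [Field k] {A ι : Type} [CommRing A] [Algebra k A] (y : ι → A) :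
    Imod k (⊥ : Ideal A) y ↔ AlgebraicIndependent k y := by
  rw [algebraicIndependent_iff]
  rfl

/-- a basis of weights together with elements of the centralizer -/
theorem exists_weights {k : Type} [Field k] [IsAlgClosed k] [CharZero k] (hCOC : T_COC) {m d : ℕ}
    {W : (Fin d → ℤ) → Submodule k (Pol k m)} {K : Subalgebra k (Pol k m)}
    {H : Fin d → Pol k m} {f : Pol k m} (h : Fd W K H f) :
    ∃ (χ : Fin d → Fin d → ℤ) (g : Fin d → Pol k m), (LinearIndependent k fun i => ct k (χ i)) ∧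
      ∀ i, g i ∈ Cf K f ∧ g i ∈ W (χ i) ∧ g i ≠ 0 := by
  obtain ⟨χ, hχ, hli⟩ := exists_basis {χ | Oc W K χ} (fun l hl => h.sp l hl)
  have h1 : ∀ i, Oc W (Cf K f) (χ i) := fun i => hCOC k m d W K H f h _ (hχ i)
  choose g hg using h1
  exact ⟨χ, g, hli, hg⟩

end Pool.Agent.H32.TG
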